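import Pool.Agent.helper25.PL.SpecA

/-! Project pl:, row aAJC (helper17): the number of entries in no block whose blocks end at comparable scales. -/

set_option autoImplicit false

open Complex Metric Set Filter Topology MeasureTheory
open Pool.Agent.helper98.ILF
open HY (UD T S hd UN RM)

noncomputable section

namespace PL

theorem AJC_last (t T : ℕ) (P : ℕ → Prop) (h0 : P (T + 1)) (hlt : ∀ v, P v → v < t) :
    ∃ v, T < v ∧ P v ∧ ¬ P (v + 1) := by
  by_contra hcon
  push Not at hcon
  have h : ∀ n : ℕ, P (T + 1 + n) := by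
    intro n
    induction n with
    | zero => exact h0
    | succ n ih =>
      have := hcon (T + 1 + n) (by omega) ih
      have e : T + 1 + (n + 1) = T + 1 + n + 1 := by ring
      rw [e]; exact this
  have := hlt _ (h t)
  omega

theorem AJC_core (t : ℕ) (c : ℕ → ℝ) (e : ℕ → ℕ) (X : ℝ) (hanti : Antitone c) :
    ∀ J : Finset ℕ, (∀ T ∈ J, T < e T ∧ c (e T + 1) ≤ X * c t ∧ 4 * c (e T + 1) ≤ c (T + 1)) →
      (∀ T ∈ J, ∀ T' ∈ J, T < T' → e T < T') →
      ∀ T ∈ J, (∀ T' ∈ J, T' ≤ T) → (4 : ℝ) ^ (J.card - 1) * c (e T + 1) ≤ X * c t := by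
  intro J
  induction J using Finset.induction_on_max with
  | empty => intro _ _ T hT; simp at hT
  | insert a s hs ih =>
    intro h1 h2 T hT hmax
    have ha : a ∉ s := fun h => lt_irrefl _ (hs a h)
    have hTa : T = a := by
      rcases Finset.mem_insert.1 hT with h | h
      · exact h
      · have h3 := hmax a (Finset.mem_insert_self a s)
        have h4 := hs T h
        omega
    subst hTa
    rw [Finset.card_insert_of_notMem ha, Nat.add_sub_cancel]
    rcases s.eq_empty_or_nonempty with hs0 | hs0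
    · subst hs0
      simpa using (h1 T (Finset.mem_insert_self _ _)).2.1
    · set m := s.max' hs0 with hm
      have hms : m ∈ s := s.max'_mem hs0
      have hmi : m ∈ insert T s := Finset.mem_insert_of_mem hms
      have ih1 := ih (fun x hx => h1 x (Finset.mem_insert_of_mem hx))
        (fun x hx y hy => h2 x (Finset.mem_insert_of_mem hx) y (Finset.mem_insert_of_mem hy)) m hms
        (fun x hx => s.le_max' x hx)
      have h5 : 4 * c (e T + 1) ≤ c (T + 1) := (h1 T (Finset.mem_insert_self _ _)).2.2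
      have h6 : e m < T := h2 m hmi T (Finset.mem_insert_self _ _) (hs m hms)
      have h7 : c (T + 1) ≤ c (e m + 1) := hanti (by omega)
      have hcard : 1 ≤ s.card := Finset.card_pos.2 hs0
      obtain ⟨n, hn⟩ : ∃ n, s.card = n + 1 := ⟨s.card - 1, by omega⟩
      rw [hn] at ih1 ⊢
      simp only [Nat.add_sub_cancel] at ih1
      calc (4 : ℝ) ^ (n + 1) * c (e T + 1) = 4 ^ n * (4 * c (e T + 1)) := by ring
        _ ≤ 4 ^ n * c (e m + 1) := by
            apply mul_le_mul_of_nonneg_left (h5.trans h7) (by positivity)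
        _ ≤ X * c t := ih1

theorem AJC : AJC_stmt := by
  intro t c B X J hX hc hB1 hB2 hB3 hB4 hJ hJX
  have hanti : Antitone c := antitone_nat_of_succ_le fun v => (hc v).2
  have hlogX : 0 ≤ Real.log X := Real.log_nonneg hX
  rcases J.eq_empty_or_nonempty with hJ0 | hJ0
  · subst hJ0
    simp only [Finset.card_empty, Nat.cast_zero]
    linarith
  have hex : ∀ T : ℕ, ∃ v, T ∈ J → (T < v ∧ B T v ∧ ¬ B T (v + 1)) := by
    intro T
    by_cases hT : T ∈ J
    · obtain ⟨v, hv⟩ := AJC_last t T (B T) (hJ T hT).1 (fun v hv => (hB1 T v hv).2)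
      exact ⟨v, fun _ => hv⟩
    · exact ⟨0, fun h => absurd h hT⟩
  choose e he using hex
  have h1 : ∀ T ∈ J, T < e T ∧ c (e T + 1) ≤ X * c t ∧ 4 * c (e T + 1) ≤ c (T + 1) := by
    intro T hT
    obtain ⟨a1, a2, a3⟩ := he T hT
    exact ⟨a1, hJX T hT (e T) a2 a3, hB4 T (e T) a2 a3⟩
  have h2 : ∀ T ∈ J, ∀ T' ∈ J, T < T' → e T < T' := by
    intro T hT T' hT' hlt
    by_contra hcon
    push Not at hcon
    exact (hJ T' hT').2 T (hB3 T T' (e T) (he T hT).2.1 hlt hcon)
  set m := J.max' hJ0 with hm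
  have hmJ : m ∈ J := J.max'_mem hJ0
  have h3 := AJC_core t c e X hanti J h1 h2 m hmJ (fun x hx => J.le_max' x hx)
  have h4 : e m < t := (hB1 m (e m) (he m hmJ).2.1).2
  have h5 : c t ≤ c (e m + 1) := hanti (by omega)
  have hct : 0 < c t := (hc t).1
  have h6 : (4 : ℝ) ^ (J.card - 1) ≤ X := by
    have h7 : (4 : ℝ) ^ (J.card - 1) * c t ≤ X * c t :=
      (mul_le_mul_of_nonneg_left h5 (by positivity)).trans h3
    exact le_of_mul_le_mul_right h7 hct
  have h8 : ((J.card - 1 : ℕ) : ℝ) * Real.log 4 ≤ Real.log X := by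
    rw [← Real.log_pow]
    exact Real.log_le_log (by positivity) h6
  have h9 : (1 : ℝ) ≤ Real.log 4 := by
    have h10 : Real.log 4 = 2 * Real.log 2 := by
      rw [show (4 : ℝ) = 2 ^ 2 by norm_num, Real.log_pow]; norm_num
    rw [h10]
    have := Real.log_two_gt_d9
    linarith
  have hcard : 1 ≤ J.card := Finset.card_pos.2 hJ0
  have h11 : ((J.card - 1 : ℕ) : ℝ) = (J.card : ℝ) - 1 := by
    rw [Nat.cast_sub hcard]; norm_num
  rw [h11] at h8
  have h12 : (0 : ℝ) ≤ (J.card : ℝ) - 1 := by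
    have : (1 : ℝ) ≤ (J.card : ℝ) := by exact_mod_cast hcard
    linarith
  nlinarith

end PL
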